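import Mathlib

open Finset Subgroup Pointwise

namespace Pool.Agent.Results.MP_3e56e8_al.Cong

/-- Chains indexed by `I`: `|U c| = p ^ (s - c)`, and larger `c` gives a smaller subgroup. -/
def Valid {G : Type*} [Group G] (p s : ℕ) (I : Finset ℕ) (U : I → Subgroup G) : Prop :=
  (∀ c, Nat.card (U c) = p ^ (s - c)) ∧ ∀ c d : I, d ≤ c → U c ≤ U d

/-- `N(s - I)`. -/
noncomputable def N (G : Type*) [Group G] (p s : ℕ) (I : Finset ℕ) : ℕ :=
  Nat.card {U : I → Subgroup G // Valid p s I U}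

/-- `S_J(G)`. -/
noncomputable def S (G : Type*) [Group G] (p s : ℕ) (J : Finset ℕ) : ℤ :=
  ∑ I ∈ J.powerset.erase ∅, (-1) ^ (I.card + 1) * (N G p s I : ℤ)

open Classical

lemma orb {Γ X : Type*} [Group Γ] [Finite Γ] [MulAction Γ X] (h : X → ℤ) (c : ℤ) (s : Finset X)
    (hs : ∀ g : Γ, ∀ x ∈ s, g • x ∈ s) (hh : ∀ g : Γ, ∀ x ∈ s, h (g • x) = h x)
    (hd : ∀ x ∈ s, c * Nat.card (MulAction.stabilizer Γ x) ∣ h x) :
    c * Nat.card Γ ∣ ∑ x ∈ s, h x := by
  induction s using Finset.strongInduction with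
  | H s ih =>
  rcases s.eq_empty_or_nonempty with rfl | ⟨x, hx⟩
  · simp
  let O := (Set.finite_range fun g : Γ => g • x).toFinset
  have hO : ∀ y, y ∈ O ↔ ∃ g : Γ, g • x = y := fun y => by simp [O]
  have sub : O ⊆ s := fun y hy => by obtain ⟨g, rfl⟩ := (hO y).1 hy; exact hs g x hx
  rw [← sum_sdiff sub]
  refine dvd_add (ih _ (sdiff_ssubset sub ⟨x, (hO x).2 ⟨1, one_smul _ _⟩⟩) (fun g y hy => ?_)
    (fun g y hy => hh g y (mem_sdiff.1 hy).1) fun y hy => hd y (mem_sdiff.1 hy).1) ?_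
  · rw [mem_sdiff] at hy ⊢
    refine ⟨hs g y hy.1, fun h => hy.2 ?_⟩
    obtain ⟨k, hk⟩ := (hO _).1 h
    exact (hO _).2 ⟨g⁻¹ * k, by rw [mul_smul, hk, inv_smul_smul]⟩
  · rw [sum_congr rfl (g := fun _ => h x) fun y hy => by
      obtain ⟨g, rfl⟩ := (hO y).1 hy; exact hh g x hx, sum_const, nsmul_eq_mul,
      ← (MulAction.stabilizer Γ x).card_mul_index, MulAction.index_stabilizer,
      Set.ncard_eq_toFinset_card (MulAction.orbit Γ x) (Set.finite_range fun g : Γ => g • x), Nat.cast_mul, ← mul_assoc,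
      mul_comm _ (h x)]
    exact mul_dvd_mul_right (hd x hx) _

variable {G : Type*} [Group G] [Fintype G]

def cj (g : G) (U : Subgroup G) : Subgroup G := MulAut.conj g • U

omit [Fintype G] in
lemma cj1 (g : G) (U : Subgroup G) : cj g⁻¹ (cj g U) = U := by simp [cj]

omit [Fintype G] in
lemma cj2 (g : G) (U : Subgroup G) : cj g (cj g⁻¹ U) = U := by simp [cj]

omit [Fintype G] in
lemma cjle {g : G} {U V : Subgroup G} : cj g U ≤ cj g V ↔ U ≤ V :=
  pointwise_smul_le_pointwise_smul_iff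

omit [Fintype G] in
lemma cjlt {g : G} {U V : Subgroup G} : cj g U < cj g V ↔ U < V := by
  simp only [lt_iff_le_not_ge, cjle]

omit [Fintype G] in
lemma cjc (g : G) (U : Subgroup G) : Nat.card (cj g U) = Nat.card U :=
  (Nat.card_congr (equivSMul _ U).toEquiv).symm

omit [Fintype G] in
lemma cjn {g : G} {U : Subgroup G} : cj g U = U ↔ g ∈ normalizer (U : Set G) :=
  mem_normalizer_iff_map_conj_eq.symm

lemma orb' (R : Subgroup G) (h : Subgroup G → ℤ) (c : ℤ) (s : Finset (Subgroup G))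
    (hs : ∀ g ∈ R, ∀ x ∈ s, cj g x ∈ s) (hh : ∀ g ∈ R, ∀ x ∈ s, h (cj g x) = h x)
    (hd : ∀ x ∈ s, c * Nat.card (R ⊓ normalizer (x : Set G) : Subgroup G) ∣ h x) :
    c * Nat.card R ∣ ∑ x ∈ s, h x := by
  letI : MulAction R (Subgroup G) := MulAction.compHom _ (MulAut.conj.comp R.subtype)
  refine orb h c s (fun g => hs g g.2) (fun g => hh g g.2) fun x hx => ?_
  have : MulAction.stabilizer R x = (R ⊓ normalizer (x : Set G)).subgroupOf R := by
    ext g
    rw [mem_subgroupOf, Subgroup.mem_inf, and_iff_right g.2, ← cjn]; rfl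
  rw [this, Nat.card_congr (subgroupOfEquivOfLe inf_le_left).toEquiv]
  exact hd x hx

noncomputable def mm (X : Finset (Subgroup G)) : Subgroup G → ℤ :=
  wellFounded_gt.fix fun W ih => 1 - ∑ U ∈ (X.filter (W < ·)).attach, ih U.1 (mem_filter.1 U.2).2

lemma mme (X : Finset (Subgroup G)) (W) : mm X W = 1 - ∑ U ∈ X.filter (W < ·), mm X U := by
  rw [mm, WellFounded.fix_eq, ← sum_attach (X.filter (W < ·))]

lemma split (X : Finset (Subgroup G)) {W} (hW : W ∈ X) (f : Subgroup G → ℤ) :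
    ∑ U ∈ X.filter (W ≤ ·), f U = f W + ∑ U ∈ X.filter (W < ·), f U := by
  rw [← sum_insert (by simp)]
  refine sum_congr ?_ fun _ _ => rfl
  ext U
  simp only [mem_filter, mem_insert, le_iff_eq_or_lt]
  constructor
  · rintro ⟨h, k | k⟩
    exacts [Or.inl k.symm, Or.inr ⟨h, k⟩]
  · rintro (rfl | h)
    exacts [⟨hW, Or.inl rfl⟩, ⟨h.1, Or.inr h.2⟩]

section fam
variable {X : Finset (Subgroup G)} {A : Subgroup G} (hdown : ∀ U ∈ X, ∀ W ≤ U, W ∈ X)
  (hinv : ∀ g ∈ A, ∀ U ∈ X, cj g U ∈ X)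

include hdown in
lemma mms (W) : ∑ U ∈ X, (if W ≤ U then mm X U else 0) = if W ∈ X then 1 else 0 := by
  rw [← sum_filter]
  split_ifs with h
  · rw [split X h, mme X W, sub_add_cancel]
  · exact sum_eq_zero fun U hU => absurd (hdown U (mem_filter.1 hU).1 W (mem_filter.1 hU).2) h

include hinv in
lemma mmi {g} (hg : g ∈ A) (W) : mm X (cj g W) = mm X W := by
  induction W using (wellFounded_gt (α := Subgroup G)).induction with
  | h W ih =>
  rw [mme X W, mme X (cj g W)]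
  congr 1
  symm
  refine sum_nbij' (cj g) (cj g⁻¹) (fun U hU => ?_) (fun U hU => ?_) (fun U _ => cj1 _ _)
    (fun U _ => cj2 _ _) fun U hU => (ih U (mem_filter.1 hU).2).symm
  · rw [mem_filter] at hU ⊢
    exact ⟨hinv g hg U hU.1, cjlt.2 hU.2⟩
  · rw [mem_filter] at hU ⊢
    exact ⟨hinv _ (A.inv_mem hg) U hU.1, by rw [← cjlt (g := g), cj2]; exact hU.2⟩

lemma cnt (H : Subgroup G) : (Nat.card H : ℤ) = ∑ x, if x ∈ H then 1 else 0 := by
  rw [sum_boole, Nat.card_eq_fintype_card, Fintype.card_subtype]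

variable {p : ℕ} {e : ℤ} (hc : ∀ V ∈ X, ∀ R : Subgroup G, IsPGroup p R → R ≤ A →
  R ≤ normalizer (V : Set G) →
    (Nat.card R : ℤ) ∣ e * ∑ x, if x ∈ R ∧ V ⊔ zpowers x ∈ X then 1 else 0)

include hdown hinv hc in
lemma clB (V : Subgroup G) : V ∈ X → ∀ R : Subgroup G, IsPGroup p R → R ≤ A →
    R ≤ normalizer (V : Set G) →
      (Nat.card R : ℤ) ∣ e * mm X V * Nat.card (R ⊓ V : Subgroup G) := by
  induction V using (wellFounded_gt (α := Subgroup G)).induction with
  | h V ih =>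
  intro hV R h1 h2 h3
  have k1 : ∑ U ∈ X.filter (V ≤ ·), mm X U * Nat.card (R ⊓ U : Subgroup G) =
      ∑ x, if x ∈ R ∧ V ⊔ zpowers x ∈ X then 1 else 0 := by
    simp only [cnt, mul_sum, sum_filter]
    rw [sum_congr rfl (g := fun U => ∑ x, if x ∈ R then (if V ⊔ zpowers x ≤ U then mm X U else 0)
      else 0) fun U _ => ?_, sum_comm]
    · refine sum_congr rfl fun x _ => ?_
      by_cases hx : x ∈ R <;> simp [hx, -sup_le_iff, mms hdown]
    · by_cases hU : V ≤ U
      · rw [if_pos hU]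
        refine sum_congr rfl fun x _ => ?_
        by_cases hx : x ∈ R <;> simp [hx, hU]
      · simp [hU]
  have k2 := orb' R (fun U => e * mm X U * Nat.card (R ⊓ U : Subgroup G)) 1 (X.filter (V < ·))
    (fun g hg U hU => by
      rw [mem_filter] at hU ⊢
      exact ⟨hinv g (h2 hg) U hU.1, by rw [← cjn.2 (h3 hg)]; exact cjlt.2 hU.2⟩)
    (fun g hg U _ => by
      rw [mmi hinv (h2 hg), ← cjc g (R ⊓ U), cj, cj, smul_inf, conj_smul_eq_self_of_mem hg])
    fun U hU => by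
      have := ih U (mem_filter.1 hU).2 (mem_filter.1 hU).1 (R ⊓ normalizer (U : Set G))
        (h1.to_le inf_le_left) (inf_le_left.trans h2) inf_le_right
      rwa [inf_assoc, inf_eq_right.2 (le_normalizer (H := U)), ← one_mul (Nat.card _ : ℤ)] at this
  have k3 := hc V hV R h1 h2 h3
  rw [← k1, split X hV, mul_add, mul_sum] at k3
  simp only [one_mul, mul_assoc] at k2 ⊢
  exact (dvd_add_left k2).1 k3

end fam

noncomputable def Ch (p s : ℕ) (A : Subgroup G) (I : Finset ℕ) : ℤ :=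
  ∑ τ : I → Subgroup G, if Valid p s I τ ∧ ⨆ c, τ c ≤ A then 1 else 0

noncomputable def F (p s : ℕ) (J : Finset ℕ) (A : Subgroup G) : ℤ :=
  ∑ I ∈ J.powerset, (-1) ^ I.card * Ch p s A I

variable {p s : ℕ} {J : Finset ℕ}

lemma Fi (g : G) (A : Subgroup G) : F p s J (cj g A) = F p s J A := by
  refine sum_congr rfl fun I _ => ?_
  congr 1
  symm
  refine sum_nbij' (fun τ c => cj g (τ c)) (fun τ c => cj g⁻¹ (τ c)) (by simp) (by simp)
    (by simp [cj1]) (by simp [cj2]) fun τ _ => ?_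
  simp only [Valid, cjc, cjle, iSup_le_iff]

lemma mob {X : Finset (Subgroup G)} {A : Subgroup G} (hdown : ∀ U ∈ X, ∀ W ≤ U, W ∈ X)
    (h : ∀ I ⊆ J, ∀ τ, Valid p s I τ → (⨆ c, τ c ≤ A ↔ ⨆ c, τ c ∈ X)) :
    F p s J A = ∑ U ∈ X, mm X U * F p s J U := by
  simp only [F, mul_sum]
  rw [sum_comm]
  refine sum_congr rfl fun I hI => ?_
  simp only [mul_left_comm _ ((-1 : ℤ) ^ I.card), ← mul_sum, Ch]
  congr 1
  simp only [mul_sum]
  rw [sum_comm]
  refine sum_congr rfl fun τ _ => ?_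
  by_cases hτ : Valid p s I τ
  · simp only [hτ, true_and, mul_ite, mul_one, mul_zero, mms hdown, h I (mem_powerset.1 hI) τ hτ]
  · simp [hτ]

omit [Fintype G] in
lemma supc {I : Finset ℕ} {τ : I → Subgroup G} (h : Valid p s I τ) :
    ⨆ c, τ c = ⊥ ∨ ∃ c, ⨆ c, τ c = τ c := by
  rcases I.eq_empty_or_nonempty with rfl | hI
  · simp
  · exact Or.inr ⟨⟨_, I.min'_mem hI⟩,
      le_antisymm (iSup_le fun c => h.2 _ _ (I.min'_le _ c.2)) (le_iSup _ _)⟩

lemma cone (hp : p.Prime) {A : Subgroup G} {c : ℕ} (hc : c ∈ J) (hA : Nat.card A = p ^ (s - c)) :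
    F p s J A = 0 := by
  rw [F, ← insert_erase hc, sum_powerset_insert (notMem_erase _ _), ← sum_add_distrib]
  refine sum_eq_zero fun I hI => ?_
  have hI' : c ∉ I := fun h => notMem_erase _ _ (mem_powerset.1 hI h)
  have : Ch p s A (insert c I) = Ch p s A I := by
    simp only [Ch, ← sum_filter]
    refine sum_bij' (fun τ _ d => τ ⟨d, mem_insert_of_mem d.2⟩)
      (fun τ _ d => if h : d.1 ∈ I then τ ⟨d, h⟩ else A) (fun τ h => ?_) (fun τ h => ?_)
      (fun τ h => ?_) (fun τ _ => ?_) fun _ _ => rfl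
    · simp only [mem_filter, mem_univ, true_and, iSup_le_iff] at h ⊢
      exact ⟨⟨fun d => h.1.1 _, fun d e k => h.1.2 _ _ k⟩, fun d => h.2 _⟩
    · simp only [mem_filter, mem_univ, true_and, iSup_le_iff] at h ⊢
      have k : ∀ d : (insert c I : Finset ℕ), d.1 ∉ I → d.1 = c := fun d hd =>
        (mem_insert.1 d.2).resolve_right hd
      refine ⟨⟨fun d => ?_, fun d e l => ?_⟩, fun d => ?_⟩
      · beta_reduce
        split_ifs with hd
        exacts [h.1.1 _, by rw [hA, k d hd]]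
      · beta_reduce
        split_ifs with hd he he
        · exact h.1.2 _ _ l
        · exact h.2 _
        · refine (eq_of_le_of_card_ge (h.2 _) ?_).ge
          rw [hA, h.1.1]
          exact Nat.pow_le_pow_right hp.pos (Nat.sub_le_sub_left (le_of_le_of_eq l (k d hd)) _)
        · rfl
      · split_ifs
        exacts [h.2 _, le_rfl]
    · simp only [mem_filter, mem_univ, true_and, iSup_le_iff] at h
      funext d
      split_ifs with hd
      · rfl
      · refine (eq_of_le_of_card_ge (h.2 _) ?_).symm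
        rw [hA, h.1.1, (mem_insert.1 d.2).resolve_right hd]
    · funext d
      simp
  rw [this, card_insert_of_notMem hI', pow_succ]
  ring

lemma step {X : Finset (Subgroup G)} {A : Subgroup G} (hp : p.Prime)
    (hdown : ∀ U ∈ X, ∀ W ≤ U, W ∈ X) (hinv : ∀ g ∈ A, ∀ U ∈ X, cj g U ∈ X) {ε t K : ℕ}
    (hc : ∀ V ∈ X, ∀ R : Subgroup G, IsPGroup p R → R ≤ A → R ≤ normalizer (V : Set G) →
      (Nat.card R : ℤ) ∣ (p : ℤ) ^ ε * ∑ x, if x ∈ R ∧ V ⊔ zpowers x ∈ X then 1 else 0)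
    (R : Subgroup G) (hR : R ≤ A) (ht : Nat.card R = p ^ t)
    (hU : ∀ U ∈ X, ∃ a k, Nat.card U = p ^ a ∧ a ≤ t ∧ (p : ℤ) ^ k ∣ F p s J U ∧
      K + ε ≤ k + (t - a)) : (p : ℤ) ^ K ∣ ∑ U ∈ X, mm X U * F p s J U := by
  have := orb' R (fun U => (p : ℤ) ^ ε * p ^ t * (mm X U * F p s J U)) (p ^ (K + ε)) X
    (fun g hg => hinv g (hR hg)) (fun g hg U _ => by rw [mmi hinv (hR hg), Fi]) fun U hU' => by
      obtain ⟨a, k, h1, h2, h3, h4⟩ := hU U hU'
      have h5 := clB hdown hinv hc U hU' (R ⊓ normalizer (U : Set G))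
        ((IsPGroup.of_card ht).to_le inf_le_left) (inf_le_left.trans hR) inf_le_right
      have h6 : (Nat.card (R ⊓ normalizer (U : Set G) ⊓ U : Subgroup G) : ℤ) ∣ p ^ a := by
        exact_mod_cast h1 ▸ card_dvd_of_le inf_le_right
      have h7 : (p : ℤ) ^ (K + ε) ∣ F p s J U * p ^ (t - a) :=
        (pow_dvd_pow _ h4).trans (by rw [pow_add]; exact mul_dvd_mul_right h3 _)
      refine (mul_dvd_mul h7 (h5.trans (mul_dvd_mul_left _ h6))).trans (dvd_of_eq ?_)
      rw [← Nat.sub_add_cancel h2, Nat.add_sub_cancel, pow_add]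
      ring
  rw [← mul_sum, ht, pow_add, mul_assoc, mul_comm, Nat.cast_pow] at this
  exact (mul_dvd_mul_iff_left (by have := hp.pos; positivity)).1 this

lemma gen (hp : p.Prime) {A V R : Subgroup G} (hA : IsPGroup p A) (hV : V < A) (hR : R ≤ A)
    (hN : R ≤ normalizer (V : Set G)) :
    (Nat.card R : ℤ) ∣ (p : ℤ) ^ 1 * ∑ x, if x ∈ R ∧ V ⊔ zpowers x < A then 1 else 0 := by
  haveI := Fact.mk hp
  have le : ∀ x ∈ R, V ⊔ zpowers x ≤ A := fun x hx => sup_le hV.le (by simpa using hR hx)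
  by_cases h : ∃ y ∈ R, V ⊔ zpowers y = A
  swap
  · push Not at h
    refine Dvd.dvd.mul_left (dvd_of_eq ((cnt R).trans (sum_congr rfl fun x _ => ?_))) _
    by_cases hx : x ∈ R
    · simp [hx, (le x hx).lt_of_ne (h x hx)]
    · simp [hx]
  obtain ⟨y, hy, hyA⟩ := h
  obtain ⟨r, hr⟩ : ∃ r, orderOf y = p ^ r := by
    obtain ⟨r, hr⟩ := IsPGroup.iff_orderOf.1 hA ⟨y, hR hy⟩
    exact ⟨r, by rw [← hr, orderOf_mk]⟩
  have dec : ∀ z ∈ R, ∀ x ∈ V ⊔ zpowers z, ∃ k : ℤ, ∃ v ∈ V, x = z ^ k * v := fun z hz x hx => by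
    rw [sup_comm, ← SetLike.mem_coe, coe_mul_of_left_le_normalizer_right _ _
      (by simpa using hN hz)] at hx
    obtain ⟨_, ⟨k, rfl⟩, v, hv, rfl⟩ := hx
    exact ⟨k, v, hv, rfl⟩
  have cop : ∀ (B : Subgroup G) (k : ℤ), ¬ (p : ℤ) ∣ k → y ^ k ∈ B → y ∈ B := fun B k hk hB => by
    refine (zpowers_le.2 hB) (mem_zpowers_zpow_iff.2 ?_)
    rw [hr, Nat.cast_pow, ← Int.isCoprime_iff_gcd_eq_one]
    exact ((Nat.prime_iff_prime_int.1 hp).coprime_iff_not_dvd.2 hk).symm.pow_right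
  set M := V ⊔ zpowers (y ^ (p : ℤ)) with hM
  have mem : ∀ (k : ℤ), ∀ v ∈ V, y ^ (p * k) * v ∈ M := fun k v hv =>
    M.mul_mem (mem_sup_right ⟨k, by simp [zpow_mul]⟩) (mem_sup_left hv)
  have hMA : M < A := (le _ (R.zpow_mem hy _)).lt_of_ne fun e => by
    obtain ⟨k, v, hv, h⟩ := dec _ (R.zpow_mem hy p) y (by rw [e]; exact hR hy)
    have : y ∈ V := cop V (1 - p * k) (fun hd => (Nat.prime_iff_prime_int.1 hp).not_dvd_one
      (by simpa using dvd_add hd (dvd_mul_right (p : ℤ) k))) (by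
        rw [sub_eq_neg_add, zpow_add, zpow_one, zpow_neg, zpow_mul, inv_mul_eq_of_eq_mul h]
        exact hv)
    exact hV.ne (by rw [← hyA]; exact (sup_eq_left.2 (by simpa using this)).symm)
  have k1 : (∑ x, if x ∈ R ∧ V ⊔ zpowers x < A then 1 else 0 : ℤ) =
      Nat.card (R ⊓ M : Subgroup G) := by
    rw [cnt]
    refine sum_congr rfl fun x _ => if_congr (and_congr_right fun hx => ⟨fun h => ?_, fun h =>
      lt_of_le_of_lt (sup_le le_sup_left (zpowers_le.2 h)) hMA⟩) rfl rfl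
    obtain ⟨k, v, hv, rfl⟩ := dec y hy x (hyA ▸ hR hx)
    by_cases hk : (p : ℤ) ∣ k
    · obtain ⟨k, rfl⟩ := hk
      exact mem k v hv
    · refine absurd (hyA.ge.trans (sup_le le_sup_left (zpowers_le.2 (cop _ k hk ?_)))) h.not_ge
      exact (mul_mem_cancel_right (mem_sup_left hv)).1 (mem_sup_right (mem_zpowers _))
  obtain ⟨a, ha⟩ := IsPGroup.iff_card.1 (hA.to_le hR)
  obtain ⟨b, hb⟩ := IsPGroup.iff_card.1 (hA.to_le ((inf_le_left (b := M)).trans hR))
  have k2 : Nat.card R ≤ Nat.card (Fin p × (R ⊓ M : Subgroup G)) := by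
    refine Nat.card_le_card_of_surjective (fun z => ⟨y ^ (z.1 : ℤ) * z.2,
      R.mul_mem (R.zpow_mem hy _) z.2.2.1⟩) fun x => ?_
    obtain ⟨k, v, hv, h⟩ := dec y hy x (hyA ▸ hR x.2)
    have h0 : (0 : ℤ) < p := by exact_mod_cast hp.pos
    have h1 := Int.emod_nonneg k h0.ne'
    have h2 := Int.emod_lt_of_pos k h0
    have e : (x : G) = y ^ (k % p) * (y ^ (p * (k / p)) * v) := by
      rw [← mul_assoc, ← zpow_add, Int.emod_add_mul_ediv, h]
    refine ⟨(⟨(k % p).toNat, by omega⟩, ⟨_, ?_, mem (k / p) v hv⟩), Subtype.ext ?_⟩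
    · exact (mul_mem_cancel_left (R.zpow_mem hy _)).1 (e ▸ x.2)
    · simp [Int.toNat_of_nonneg h1, e]
  rw [Nat.card_prod, hb, ha, Nat.card_eq_fintype_card, Fintype.card_fin, ← pow_succ',
    Nat.pow_le_pow_iff_right hp.one_lt] at k2
  rw [k1, ha, hb, Nat.cast_pow, Nat.cast_pow, ← pow_add]
  exact pow_dvd_pow _ (by omega)

lemma kb (hJ : ∀ c ∈ J, c ≤ s) (a d : ℕ) :
    #(J.filter (s - · ≤ a + d)) ≤ #(J.filter (s - · ≤ a)) + d := by
  induction d with
  | zero => rfl
  | succ d ih =>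
    refine (card_le_card (t := insert (s - (a + d + 1)) (J.filter (s - · ≤ a + d)))
      fun c hc => ?_).trans ((card_insert_le _ _).trans (by omega))
    simp only [mem_filter, mem_insert] at hc ⊢
    have := hJ c hc.1
    by_cases h : s - c ≤ a + d
    · exact Or.inr ⟨hc.1, h⟩
    · exact Or.inl (by omega)

lemma pg (hp : p.Prime) (hJ : ∀ c ∈ J, c ≤ s) (A : Subgroup G) : ∀ t, Nat.card A = p ^ t →
    (p : ℤ) ^ #(J.filter (s - · ≤ t)) ∣ F p s J A := by
  haveI := Fact.mk hp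
  induction A using (wellFounded_lt (α := Subgroup G)).induction with
  | h A ih =>
  intro t ht
  by_cases h : ∃ c ∈ J, s - c = t
  · obtain ⟨c, hc, rfl⟩ := h
    rw [cone hp hc ht]; exact dvd_zero _
  push Not at h
  rcases t with _ | t
  · rw [filter_false_of_mem fun c hc k => h c hc (by omega)]; simp
  have hA := IsPGroup.of_card ht
  have hd : ∀ U ∈ univ.filter (· < A), ∀ W ≤ U, W ∈ univ.filter (· < A) := fun U hU W hW => by
    simpa using hW.trans_lt (mem_filter.1 hU).2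
  rw [mob hd fun I hI τ hτ => ?_]
  · refine step (A := A) (ε := 1) hp hd (fun g hg U hU => ?_) (fun V hV R _ h2 h3 => ?_) A le_rfl
      ht fun U hU => ?_
    · simp only [mem_filter, mem_univ, true_and] at hU ⊢
      rw [← cjn.2 (le_normalizer hg)]; exact cjlt.2 hU
    · simpa using gen hp hA (mem_filter.1 hV).2 h2 h3
    · have hU := (mem_filter.1 hU).2
      obtain ⟨a, ha⟩ := IsPGroup.iff_card.1 (hA.to_le hU.le)
      have : a < t + 1 := by
        rw [← Nat.pow_lt_pow_iff_right hp.one_lt, ← ha, ← ht]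
        exact lt_of_not_ge fun k => hU.ne (eq_of_le_of_card_ge hU.le k)
      refine ⟨a, _, ha, this.le, ih U hU a ha, ?_⟩
      have k := kb hJ a (t - a)
      rw [show a + (t - a) = t by omega] at k
      rw [filter_congr (q := (s - · ≤ t)) fun c hc => by have := h c hc; omega]
      omega
  · simp only [mem_filter, mem_univ, true_and]
    refine ⟨fun k => k.lt_of_ne fun e => ?_, le_of_lt⟩
    rcases supc hτ with l | ⟨c, l⟩
    · rw [← e, l, card_bot] at ht
      exact (Nat.one_lt_pow (by omega) hp.one_lt).ne ht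
    · rw [← e, l, hτ.1] at ht
      exact h c (hI c.2) (Nat.pow_right_injective hp.two_le ht)

theorem result (G : Type*) [Group G] [Finite G] (p t n s : ℕ) (hp : p.Prime)
    (hG : Nat.card G = p ^ t * n) (hn : ¬ p ∣ n) (hs : s ≤ t) (J : Finset ℕ)
    (hJ : ∀ c ∈ J, c ≤ s) : S G p s J ≡ 1 [ZMOD (p : ℤ) ^ J.card] := by
  haveI := Fact.mk hp
  letI := Fintype.ofFinite G
  obtain ⟨R, hR⟩ := Sylow.exists_subgroup_card_pow_prime p (n := t) (G := G) ⟨n, hG⟩
  have hd : ∀ U ∈ univ.filter fun U : Subgroup G => IsPGroup p U, ∀ W ≤ U,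
      W ∈ univ.filter fun U : Subgroup G => IsPGroup p U := fun U hU W hW => by
    simpa using (mem_filter.1 hU).2.to_le hW
  have key : (p : ℤ) ^ J.card ∣ F p s J (⊤ : Subgroup G) := by
    rw [mob hd fun I hI τ hτ => ?_]
    · refine step (A := ⊤) (ε := 0) hp hd (fun g _ U hU => ?_) (fun V hV R h1 _ h3 => ?_) R le_top
        hR fun U hU => ?_
      · simp only [mem_filter, mem_univ, true_and, IsPGroup.iff_card, cjc] at hU ⊢
        exact hU
      · refine Dvd.dvd.mul_left (dvd_of_eq ((cnt R).trans (sum_congr rfl fun x _ => ?_))) _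
        by_cases hx : x ∈ R
        · have : zpowers x ≤ R := by simpa using hx
          simp [hx, (mem_filter.1 hV).2.to_sup_of_normal_left' (h1.to_le this) (this.trans h3)]
        · simp [hx]
      · obtain ⟨a, ha⟩ := IsPGroup.iff_card.1 (mem_filter.1 hU).2
        have : a ≤ t := by
          have := card_subgroup_dvd_card U
          rw [ha, hG] at this
          exact (Nat.pow_dvd_pow_iff_le_right hp.one_lt).1
            ((Nat.Coprime.pow_left _ (hp.coprime_iff_not_dvd.2 hn)).dvd_of_dvd_mul_right this)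
        refine ⟨a, _, ha, this, pg hp hJ U a ha, ?_⟩
        have k := kb hJ a (t - a)
        rwa [filter_true_of_mem fun c _ => by omega] at k
    · simp only [mem_filter, mem_univ, true_and, le_top, true_iff]
      rcases supc hτ with l | ⟨c, l⟩ <;> rw [l]
      exacts [IsPGroup.of_bot, IsPGroup.of_card (hτ.1 c)]
  have e : ∀ I, Ch p s (⊤ : Subgroup G) I = N G p s I := fun I => by
    rw [Ch, sum_boole, N, Nat.card_eq_fintype_card, Fintype.card_subtype]; simp
  rw [Int.modEq_iff_dvd]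
  refine key.trans (dvd_of_eq ?_)
  rw [F, ← add_sum_erase _ _ (empty_mem_powerset J), S, sub_eq_add_neg, ← sum_neg_distrib]
  congr 1
  · simp [Ch, Valid]
  · exact sum_congr rfl fun I _ => by rw [e, pow_succ]; ring

end Pool.Agent.Results.MP_3e56e8_al.Cong
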